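import Pool.Agent.Helper88.TA.Goals
import Pool.Agent.Helper88.TU.Size
import Pool.Agent.Helper13.GM.S3

/-!
# MP_69be96_nt, project TA, packet S3: two disjoint sets of points
-/

set_option autoImplicit false

open Finset Filter Topology

open scoped Classical

namespace Pool.Agent.Helper90.TA

open Pool.Agent.Helper88.TA
open Pool.Agent.Helper88.PP (pr Rg om Sf SS uu vv ee LA VV QQ cost nc dd)
open Pool.Agent.Helper88.RR (gg ab TB WB nz wb DB VM GB)
open Pool.Agent.Helper88.GM (NI XI In)
open Pool.Agent.Helper85.RR (ab_nonneg gg_nonneg nz_le mem_TB card_TB prod_TB WB_eq DB_eq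
  wb_nonneg one_le_DB)
open Pool.Agent.Helper64.PP (glue resL resR resL_glue resR_glue glue_res prod_split)
open Pool.Agent.Helper13.GM (TU sum_TU nz_split)

/-- submultiplicativity of the density -/
theorem gg_add_le {y z k l : ℕ} (h : k + l ≤ y) : gg y z (k + l) ≤ gg y z k * gg y z l := by
  unfold gg
  rw [← Finset.prod_mul_distrib]
  refine Finset.prod_le_prod (fun p hp => ?_) (fun p hp => ?_)
  · have h1 := (Finset.mem_Ioc.1 (Finset.mem_filter.mp hp).1).1
    have h2 : ((k + l : ℕ) : ℝ) ≤ p := by exact_mod_cast (by omega : k + l ≤ p)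
    have h3 : (0 : ℝ) < p := by exact_mod_cast (by omega : 0 < p)
    have h4 : ((k + l : ℕ) : ℝ) / p ≤ 1 := by
      rw [div_le_one h3]
      exact h2
    linarith
  · have h5 : 0 ≤ (k : ℝ) / p * ((l : ℝ) / p) := by positivity
    push_cast
    have h6 : (1 - (k : ℝ) / p) * (1 - (l : ℝ) / p)
        = 1 - ((k : ℝ) + l) / p + (k : ℝ) / p * ((l : ℝ) / p) := by ring
    rw [h6]
    linarith

/-- packet S3 -/
theorem s3 : Pool.Agent.Helper88.TU.StmtTG → StmtS3 := by
  rintro ⟨c, hc, E0, hE0⟩
  intro ε hε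
  obtain ⟨E2, hE2⟩ := exists_nat_ge (-(Real.log ε) / c)
  refine ⟨max E0 (max E2 4), fun E z x y hE hsr u v Q b hin m q hm hqm hV hK
    P P' hP hP' hd hPo => ?_⟩
  have hEE0 : E0 ≤ E := le_trans (le_max_left _ _) hE
  have hEE2 : E2 ≤ E := le_trans (le_trans (le_max_left _ _) (le_max_right _ _)) hE
  have hE4 : 4 ≤ E := le_trans (le_trans (le_max_right _ _) (le_max_right _ _)) hE
  have hEr : (4 : ℝ) ≤ E := by exact_mod_cast hE4
  have hE0r : (0 : ℝ) < E := by linarith
  have hz2 : 2 ≤ z := by
    have h3 := Real.add_one_le_exp (E : ℝ)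
    have h4 := hsr.1
    have h5 : ((2 : ℕ) : ℝ) ≤ z := by
      push_cast
      linarith
    exact_mod_cast h5
  have hz0 : (0 : ℝ) < z := by
    have : (2 : ℝ) ≤ z := by exact_mod_cast hz2
    linarith
  -- `y` is large
  have hlogz : (E : ℝ) ≤ Real.log z := by
    rw [← Real.log_exp (E : ℝ)]
    exact Real.log_le_log (Real.exp_pos _) hsr.1
  have hlogx : (E : ℝ) * Real.log z ≤ Real.log x := by
    rw [← Real.log_pow]
    refine Real.log_le_log (by positivity) ?_
    exact_mod_cast hsr.2.1
  have hylog : (E : ℝ) * Real.log z ≤ y := hlogx.trans hsr.2.2.2.1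
  have hyE : (E : ℝ) * E ≤ y := (mul_le_mul_of_nonneg_left hlogz hE0r.le).trans hylog
  have hyEn : E * E ≤ y := by exact_mod_cast hyE
  set K0 : ℕ := E / 16 / m + 1 with hK0
  have h2K0 : 2 * K0 ≤ E := le_trans (Nat.le_self_pow (by norm_num) _) hK
  have h2Ky : 2 * K0 ≤ y := by
    have : E ≤ E * E := Nat.le_mul_of_pos_left _ (by omega)
    omega
  have hPy : P.card ≤ y := by
    refine (Finset.card_le_card hP).trans ?_
    simp
  have hPy' : P'.card ≤ y := by
    refine (Finset.card_le_card hP').trans ?_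
    simp
  have key := hE0 E z x y hEE0 hsr u v Q b hin m q (2 * K0) (E / 16) hm hqm hV hK
    (Nat.div_le_div_left (by norm_num) (by norm_num)) le_rfl (P ∪ P')
    (Finset.union_subset hP hP')
    (by
      rw [Finset.card_union_of_disjoint hd]
      push_cast
      exact hPo)
    (TU m q (E / 16) z P P')
    (fun t => ∏ i, (if t i = 0 then 1 else - ab m q z (t i))) ∅ ∅ (by simp) (by simp) (by simp)
    (by
      intro r hr i _ _
      rw [TU, Finset.mem_filter, Fintype.mem_piFinset] at hr
      have := hr.1 i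
      rwa [Finset.mem_insert] at this)
    (fun r hr i hi => absurd hi (Finset.notMem_empty i))
    (fun r hr i hi => absurd hi (Finset.notMem_empty i))
    (by
      intro r hr
      rw [TU, Finset.mem_filter] at hr
      have h3 := card_TB hm hz2 hr.2.1
      have h4 := card_TB hm hz2 hr.2.2
      rw [nz_split P P' hd r]
      omega)
    (by
      intro r hr
      rw [TU, Finset.mem_filter] at hr
      have h3 := prod_TB hz2 hr.2.1
      have h4 := prod_TB hz2 hr.2.2
      rw [prod_split P P' hd (fun _ k => max 1 k) r, two_mul, pow_add]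
      exact Nat.mul_le_mul h3 h4)
    (by
      intro r _
      rw [Finset.abs_prod]
      refine Finset.prod_le_prod (fun i _ => abs_nonneg _) fun i _ => ?_
      rw [if_neg (Finset.notMem_empty i), if_neg (Finset.notMem_empty i)]
      split_ifs
      · rw [abs_one]
      · rw [abs_neg, abs_of_nonneg (ab_nonneg _ _ _ _)])
  have hsum : ∀ n, (∑ r ∈ TU m q (E / 16) z P P',
      (∏ i, (if r i = 0 then 1 else - ab m q z (r i))) * ∏ i, vv y z (r i) (n + (i : ℕ)))
      = WB m q (E / 16) z y P n * WB m q (E / 16) z y P' n := by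
    intro n
    rw [WB, WB, ← sum_TU m q (E / 16) z P P' hd
      (fun r => ∏ i : P, ((if r i = 0 then 1 else - ab m q z (r i)) *
        vv y z (r i) (n + (i : ℕ))))
      (fun r => ∏ i : P', ((if r i = 0 then 1 else - ab m q z (r i)) *
        vv y z (r i) (n + (i : ℕ))))]
    refine Finset.sum_congr rfl fun r _ => ?_
    rw [← Finset.prod_mul_distrib]
    exact prod_split P P' hd
      (fun i k => (if k = 0 then 1 else - ab m q z k) * vv y z k (n + i)) r
  have hXX : 0 ≤ XI u v Q := by unfold XI; positivity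
  have hD1 : 1 ≤ DB m q (E / 16) z y P := one_le_DB m q (E / 16) z y hPy
  have hD2 : 1 ≤ DB m q (E / 16) z y P' := one_le_DB m q (E / 16) z y hPy'
  -- the main term
  have hmain : ∑ r ∈ TU m q (E / 16) z P P',
      (∏ i, (if r i = 0 then 1 else - ab m q z (r i))) ^ 2 *
        (gg y z (nz r) * ∏ i, (if r i = 0 then 1 else (Nat.totient (r i) : ℝ)))
      ≤ DB m q (E / 16) z y P * DB m q (E / 16) z y P' := by
    rw [DB, DB, ← sum_TU m q (E / 16) z P P' hd (fun r => wb m q y z r)
      (fun r => wb m q y z r)]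
    refine Finset.sum_le_sum fun r hr => ?_
    rw [TU, Finset.mem_filter] at hr
    have hc1 := card_TB hm hz2 hr.2.1
    have hc2 := card_TB hm hz2 hr.2.2
    have hgB : gg y z (nz r) ≤ gg y z (nz (resL P P' r)) * gg y z (nz (resR P P' r)) := by
      rw [nz_split P P' hd r]
      exact gg_add_le (by omega)
    have hpr : (∏ i, (if r i = 0 then 1 else - ab m q z (r i))) ^ 2 *
        ∏ i, (if r i = 0 then 1 else (Nat.totient (r i) : ℝ)) =
        (∏ i : P, (if resL P P' r i = 0 then 1 else
          ab m q z (resL P P' r i) ^ 2 * (Nat.totient (resL P P' r i) : ℝ))) *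
        ∏ i : P', (if resR P P' r i = 0 then 1 else
          ab m q z (resR P P' r i) ^ 2 * (Nat.totient (resR P P' r i) : ℝ)) := by
      rw [← prod_split P P' hd
        (fun _ k => if k = 0 then 1 else ab m q z k ^ 2 * (Nat.totient k : ℝ)) r,
        ← Finset.prod_pow, ← Finset.prod_mul_distrib]
      refine Finset.prod_congr rfl fun i _ => ?_
      split_ifs <;> ring
    have hpn : 0 ≤ (∏ i, (if r i = 0 then 1 else - ab m q z (r i))) ^ 2 *
        ∏ i, (if r i = 0 then 1 else (Nat.totient (r i) : ℝ)) := by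
      refine mul_nonneg (sq_nonneg _) (Finset.prod_nonneg fun i _ => ?_)
      split_ifs
      · exact zero_le_one
      · positivity
    calc (∏ i, (if r i = 0 then 1 else - ab m q z (r i))) ^ 2 *
        (gg y z (nz r) * ∏ i, (if r i = 0 then 1 else (Nat.totient (r i) : ℝ)))
        = gg y z (nz r) * ((∏ i, (if r i = 0 then 1 else - ab m q z (r i))) ^ 2 *
          ∏ i, (if r i = 0 then 1 else (Nat.totient (r i) : ℝ))) := by ring
      _ ≤ (gg y z (nz (resL P P' r)) * gg y z (nz (resR P P' r))) *
          ((∏ i, (if r i = 0 then 1 else - ab m q z (r i))) ^ 2 *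
          ∏ i, (if r i = 0 then 1 else (Nat.totient (r i) : ℝ))) :=
          mul_le_mul_of_nonneg_right hgB hpn
      _ = wb m q y z (resL P P' r) * wb m q y z (resR P P' r) := by
          rw [hpr]
          unfold wb
          ring
  -- the error term
  have herr : Real.exp (-(c * E)) ≤ ε := by
    have h3 : -(Real.log ε) / c ≤ E := hE2.trans (by exact_mod_cast hEE2)
    rw [div_le_iff₀ hc] at h3
    have h4 : Real.exp (-(c * E)) ≤ Real.exp (Real.log ε) := Real.exp_le_exp.2 (by linarith)
    rwa [Real.exp_log hε] at h4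
  simp only [hsum] at key
  rw [Finset.card_empty, Nat.add_zero, pow_zero, mul_one] at key
  have hkey := (abs_le.1 key).2
  have hsq : ∑ n ∈ NI u v Q b, WB m q (E / 16) z y P n ^ 2 * WB m q (E / 16) z y P' n ^ 2 =
      ∑ n ∈ NI u v Q b, (WB m q (E / 16) z y P n * WB m q (E / 16) z y P' n) ^ 2 :=
    Finset.sum_congr rfl fun n _ => (mul_pow _ _ _).symm
  rw [hsq]
  have hDD : 1 ≤ DB m q (E / 16) z y P * DB m q (E / 16) z y P' :=
    one_le_mul_of_one_le_of_one_le hD1 hD2
  have h5 : Real.exp (-(c * E)) * XI u v Q ≤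
      ε * (XI u v Q * (DB m q (E / 16) z y P * DB m q (E / 16) z y P')) := by
    calc Real.exp (-(c * E)) * XI u v Q ≤ ε * XI u v Q := mul_le_mul_of_nonneg_right herr hXX
      _ ≤ ε * (XI u v Q * (DB m q (E / 16) z y P * DB m q (E / 16) z y P')) := by
        refine mul_le_mul_of_nonneg_left ?_ (by linarith)
        exact le_mul_of_one_le_right hXX hDD
  have h6 := mul_le_mul_of_nonneg_left hmain hXX
  calc ∑ n ∈ NI u v Q b, (WB m q (E / 16) z y P n * WB m q (E / 16) z y P' n) ^ 2
      ≤ XI u v Q * ∑ r ∈ TU m q (E / 16) z P P',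
      (∏ i, (if r i = 0 then 1 else - ab m q z (r i))) ^ 2 *
        (gg y z (nz r) * ∏ i, (if r i = 0 then 1 else (Nat.totient (r i) : ℝ))) +
        Real.exp (-(c * E)) * XI u v Q := by linarith
    _ ≤ XI u v Q * (DB m q (E / 16) z y P * DB m q (E / 16) z y P') +
        ε * (XI u v Q * (DB m q (E / 16) z y P * DB m q (E / 16) z y P')) := by linarith
    _ = (1 + ε) * (XI u v Q * (DB m q (E / 16) z y P * DB m q (E / 16) z y P')) := by ring

end Pool.Agent.Helper90.TA
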